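import Pool.Agent.H5.CF.Targets

set_option autoImplicit false

namespace Pool.Agent.H87.CF
open Pool.Agent.H5.CF

lemma ofFn_mul_prod (m n N : ℕ) (hN : N = m * n) (f : Fin N → G) :
    (List.ofFn f).prod = (List.ofFn fun i : Fin m => (List.ofFn fun j : Fin n =>
      f ⟨n * i + j, by
        subst hN
        calc n * (i : ℕ) + j < n * i + n := by have := j.2; omega
          _ = n * (i + 1) := by ring
          _ ≤ n * m := Nat.mul_le_mul_left _ i.2
          _ = m * n := mul_comm _ _⟩).prod).prod := by
  subst hN
  rw [List.ofFn_mul, List.prod_flatten, List.map_ofFn]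
  congr 1
  congr 1
  funext i
  simp only [Function.comp]
  congr 1
  congr 1
  funext j
  congr 1
  apply Fin.ext
  simp only
  ring

lemma term_eq (h : Fin 52 → Fin 8 → ℕ) (x : Fin 1248) (i : Fin 52) (k : Fin 8) (c : Fin 3)
    (hx : (x : ℕ) = 24 * i + (3 * k + c)) :
    gx x ^ conf h x = emb i (letL c) ^ (if c = 1 then 1 else h i k) := by
  have hi := i.2
  have hk := k.2
  have hc := c.2
  have e1 : syl x = i := by
    apply Fin.ext
    simp only [syl]
    omega
  have e2 : atm x = k := by
    apply Fin.ext
    simp only [atm]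
    omega
  have e3 : part x = c := by
    apply Fin.ext
    simp only [part]
    omega
  unfold gx conf
  rw [e1, e2, e3]

theorem M5e_holds : TargetM5e := by
  intro h
  unfold ev
  rw [ofFn_mul_prod 52 24 1248 (by norm_num)]
  congr 1
  congr 1
  funext i
  rw [ofFn_mul_prod 8 3 24 (by norm_num)]
  unfold sylv
  rw [map_list_prod, List.map_ofFn]
  congr 1
  congr 1
  funext k
  simp only [Function.comp]
  rw [List.ofFn_succ, List.ofFn_succ, List.ofFn_succ, List.ofFn_zero]
  simp only [List.prod_cons, List.prod_nil, mul_one, map_mul, map_pow]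
  rw [term_eq h _ i k 0 rfl, term_eq h _ i k 1 rfl, term_eq h _ i k 2 rfl]
  simp only [letL, mul_assoc]
  simp

end Pool.Agent.H87.CF
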