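import Pool.Agent.H5.CF.Targets

set_option autoImplicit false

namespace Pool.Agent.H87.CF
open Pool.Agent.H5.CF

lemma t_pow_pos (n : ℕ) : (LW.t ^ n).pos = n := by
  induction n with
  | zero => simp
  | succ n ih => rw [pow_succ, LW.mul_pos', ih]; simp [LW.t]

lemma t_pow_lamp (n : ℕ) (z : ℤ) : (LW.t ^ n).lamp z = 0 := by
  induction n generalizing z with
  | zero => simp
  | succ n ih => rw [pow_succ, LW.mul_lamp, ih]; simp [LW.t]

lemma tinv_pow_pos (n : ℕ) : (LW.t⁻¹ ^ n).pos = -n := by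
  rw [inv_pow, LW.inv_pos', t_pow_pos]

lemma tinv_pow_lamp (n : ℕ) (z : ℤ) : (LW.t⁻¹ ^ n).lamp z = 0 := by
  rw [inv_pow, LW.inv_lamp, t_pow_lamp, neg_zero]

lemma atom_pos (n : ℕ) : (LW.t ^ n * LW.a * LW.t⁻¹ ^ n).pos = 0 := by
  rw [LW.mul_pos', LW.mul_pos', t_pow_pos, tinv_pow_pos]
  simp [LW.a]

lemma atom_lamp (n : ℕ) (z : ℤ) :
    (LW.t ^ n * LW.a * LW.t⁻¹ ^ n).lamp z = if (n : ℤ) = z then 1 else 0 := by
  rw [LW.mul_lamp, LW.mul_lamp, t_pow_lamp, tinv_pow_lamp, t_pow_pos]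
  simp only [LW.a, zero_add, add_zero]
  by_cases h : (n : ℤ) = z
  · rw [if_pos h, if_pos (by omega)]
  · rw [if_neg h, if_neg (by omega)]

lemma list_pos (l : List LW) (h : ∀ u ∈ l, u.pos = 0) : l.prod.pos = 0 := by
  induction l with
  | nil => simp
  | cons u l ih =>
    rw [List.prod_cons, LW.mul_pos', h u (by simp), ih fun v hv => h v (by simp [hv]), add_zero]

lemma list_lamp (l : List LW) (h : ∀ u ∈ l, u.pos = 0) (z : ℤ) :
    l.prod.lamp z = (l.map fun u => u.lamp z).sum := by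
  induction l with
  | nil => simp
  | cons u l ih =>
    rw [List.prod_cons, LW.mul_lamp, h u (by simp), sub_zero, ih fun v hv => h v (by simp [hv]),
      List.map_cons, List.sum_cons]

lemma coe_sylv (h : Fin 8 → ℕ) : (sylv h : LW) =
    (List.ofFn fun k => LW.t ^ (h k) * LW.a * LW.t⁻¹ ^ (h k)).prod := by
  unfold sylv
  have h1 := map_list_prod (Subgroup.subtype (Subgroup.closure ({LW.t, LW.a} : Set LW)))
    (List.ofFn fun k => tL ^ (h k) * aL * tL⁻¹ ^ (h k))
  rw [List.map_ofFn] at h1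
  exact h1

lemma sylv_pos (h : Fin 8 → ℕ) : (sylv h : LW).pos = 0 := by
  rw [coe_sylv]
  refine list_pos _ fun u hu => ?_
  rw [List.mem_ofFn] at hu
  obtain ⟨k, rfl⟩ := hu
  exact atom_pos _

lemma sylv_lamp (h : Fin 8 → ℕ) (z : ℤ) :
    (sylv h : LW).lamp z = lf (fun k => (h k : ℤ)) z := by
  rw [coe_sylv, list_lamp, List.map_ofFn, List.sum_ofFn]
  · unfold lf
    exact Finset.sum_congr rfl fun k _ => atom_lamp _ _
  · intro u hu
    rw [List.mem_ofFn] at hu
    obtain ⟨k, rfl⟩ := hu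
    exact atom_pos _

theorem M5l_holds : TargetM5l := by
  refine ⟨fun h => ⟨sylv_pos h, sylv_lamp h⟩, ?_, ?_, ?_⟩
  · intro h h'
    constructor
    · intro e z
      rw [← sylv_lamp, ← sylv_lamp, e]
    · intro e
      apply Subtype.ext
      ext z
      · rw [sylv_lamp, sylv_lamp, e z]
      · rw [sylv_pos, sylv_pos]
  · intro h
    constructor
    · intro e z
      rw [← sylv_lamp, e]
      rfl
    · intro e
      apply Subtype.ext
      ext z
      · rw [sylv_lamp, e z]; rfl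
      · rw [sylv_pos]; rfl
  · intro h
    apply Subtype.ext
    show (sylv h : LW) * (sylv h : LW) = 1
    ext z
    · rw [LW.mul_lamp, sylv_pos, sub_zero, LW.one_lamp]
      exact CharTwo.add_self_eq_zero _
    · rw [LW.mul_pos', sylv_pos]; rfl

end Pool.Agent.H87.CF
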