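import Pool.Agent.H5.CF.Targets

set_option autoImplicit false

namespace Pool.Agent.H87.CF
open Pool.Agent.H5.CF

/-- largeness of a set of parameters -/
def Big : (s : ℕ) → Set (Fin s → ℕ) → Prop
  | 0, A => A.Nonempty
  | s + 1, A => {x : ℕ | Big s {θ | (Fin.snoc θ x : Fin (s + 1) → ℕ) ∈ A}}.Infinite

lemma Big.mono : ∀ {s : ℕ} {A B : Set (Fin s → ℕ)}, A ⊆ B → Big s A → Big s B
  | 0, _, _, h, hA => Set.Nonempty.mono h hA
  | s + 1, _, _, h, hA => by
    refine Set.Infinite.mono ?_ hA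
    intro x hx
    exact Big.mono (s := s) (fun θ hθ => h hθ) hx

lemma Big.union : ∀ {s : ℕ} {A B : Set (Fin s → ℕ)}, Big s (A ∪ B) → Big s A ∨ Big s B
  | 0, _, _, h => Set.union_nonempty.1 h
  | s + 1, A, B, h => by
    have h1 : ({x : ℕ | Big s {θ | (Fin.snoc θ x : Fin (s + 1) → ℕ) ∈ A}} ∪
        {x : ℕ | Big s {θ | (Fin.snoc θ x : Fin (s + 1) → ℕ) ∈ B}}).Infinite := by
      refine Set.Infinite.mono ?_ h
      intro x hx
      exact Big.union (s := s) hx
    exact Set.infinite_union.1 h1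

lemma Big.univ : ∀ {s : ℕ}, Big s Set.univ
  | 0 => Set.univ_nonempty
  | s + 1 => by
    refine Set.Infinite.mono ?_ (Set.infinite_univ (α := ℕ))
    intro x _
    exact Big.univ (s := s)

lemma Big.not_empty : ∀ {s : ℕ}, ¬ Big s ∅
  | 0 => Set.not_nonempty_empty
  | s + 1 => by
    intro h
    obtain ⟨x, hx⟩ := h.nonempty
    exact Big.not_empty (s := s) hx

lemma Big.nonempty {s : ℕ} {A : Set (Fin s → ℕ)} (h : Big s A) : A.Nonempty := by
  rcases A.eq_empty_or_nonempty with h1 | h1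
  · rw [h1] at h
    exact absurd h Big.not_empty
  · exact h1

lemma Big.biUnion {s : ℕ} {ι : Type} {I : Set ι} (hI : I.Finite) :
    ∀ (F : ι → Set (Fin s → ℕ)), Big s (⋃ i ∈ I, F i) → ∃ i ∈ I, Big s (F i) := by
  induction I, hI using Set.Finite.induction_on with
  | empty =>
    intro F h
    simp only [Set.mem_empty_iff_false, Set.iUnion_of_empty, Set.iUnion_empty] at h
    exact absurd h Big.not_empty
  | insert ha hs ih =>
    intro F h
    rw [Set.biUnion_insert] at h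
    rcases Big.union h with h1 | h1
    · exact ⟨_, Set.mem_insert _ _, h1⟩
    · obtain ⟨i, hi, h2⟩ := ih F h1
      exact ⟨i, Set.mem_insert_of_mem _ hi, h2⟩

lemma Big.seq : ∀ {s : ℕ} {A : Set (Fin s → ℕ)}, Big s A → ∀ j : Fin s,
    ∃ θ : ℕ → Fin s → ℕ, (∀ i, θ i ∈ A) ∧ (∀ i l, j < l → θ i l = θ 0 l) ∧
      StrictMono (fun i => θ i j)
  | 0, _, _, j => j.elim0
  | s + 1, A, h, j => by
    rcases Fin.eq_castSucc_or_eq_last j with ⟨j', hj⟩ | hj
    · obtain ⟨x, hx⟩ := Set.Infinite.nonempty h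
      obtain ⟨θ, h1, h2, h3⟩ := Big.seq (s := s) hx j'
      refine ⟨fun i => Fin.snoc (θ i) x, h1, ?_, ?_⟩
      · intro i l hl
        rcases Fin.eq_castSucc_or_eq_last l with ⟨l', hl'⟩ | hl'
        · subst hl'
          subst hj
          simp only [Fin.snoc_castSucc]
          exact h2 i l' (by simpa using hl)
        · subst hl'
          simp only [Fin.snoc_last]
      · subst hj
        simp only [Fin.snoc_castSucc]
        exact h3
    · subst hj
      have h1 : ∀ x, ∃ θ : Fin s → ℕ, Big s {θ | (Fin.snoc θ x : Fin (s + 1) → ℕ) ∈ A} →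
          (Fin.snoc θ x : Fin (s + 1) → ℕ) ∈ A := by
        intro x
        by_cases hx : Big s {θ | (Fin.snoc θ x : Fin (s + 1) → ℕ) ∈ A}
        · obtain ⟨θ, hθ⟩ := hx.nonempty
          exact ⟨θ, fun _ => hθ⟩
        · exact ⟨0, fun h => absurd h hx⟩
      choose φ hφ using h1
      have hinf : {x : ℕ | Big s {θ | (Fin.snoc θ x : Fin (s + 1) → ℕ) ∈ A}}.Infinite := h
      refine ⟨fun i => Fin.snoc (φ (Nat.nth
        (fun x => Big s {θ | (Fin.snoc θ x : Fin (s + 1) → ℕ) ∈ A}) i))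
          (Nat.nth (fun x => Big s {θ | (Fin.snoc θ x : Fin (s + 1) → ℕ) ∈ A}) i), ?_, ?_, ?_⟩
      · intro i
        exact hφ _ (Nat.nth_mem_of_infinite hinf i)
      · intro i l hl
        exact absurd (Fin.le_last l) (not_le.2 hl)
      · simp only [Fin.snoc_last]
        exact Nat.nth_strictMono hinf

theorem M9_holds : TargetM9 := by
  intro K s 𝒮 hfin b e hall
  have hbig : Big s (⋃ S ∈ 𝒮, {θ : Fin s → ℕ | b + ∑ j, θ j • e j ∈ S.toSet}) := by
    refine Big.mono ?_ Big.univ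
    intro θ _
    obtain ⟨S, hS, h⟩ := hall θ
    exact Set.mem_biUnion hS h
  obtain ⟨S, hS, hB⟩ := Big.biUnion hfin _ hbig
  refine ⟨S, hS, hB.nonempty, ?_⟩
  intro j
  obtain ⟨θ, h1, h2, h3⟩ := hB.seq j
  have h4 : ∀ i, ∃ c : (Fin K → ℕ) → ℕ, b + ∑ l, θ i l • e l = S.base + ∑ v ∈ S.per, c v • v :=
    fun i => h1 i
  choose c hc using h4
  obtain ⟨i, i', hii, hle⟩ := (wellQuasiOrdered_le
    (α := (Fin s → ℕ) × (↥S.per → ℕ))) (fun i => (θ i, fun v => c i v))
  have hle1 : ∀ l, θ i l ≤ θ i' l := fun l => hle.1 l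
  have hle2 : ∀ v ∈ S.per, c i v ≤ c i' v := fun v hv => hle.2 ⟨v, hv⟩
  refine ⟨fun l => θ i' l - θ i l, ?_, ?_, ⟨fun v => c i' v - c i v, ?_⟩⟩
  · exact Nat.sub_pos_of_lt (h3 hii)
  · intro l hl
    show θ i' l - θ i l = 0
    rw [h2 i' l hl, h2 i l hl, Nat.sub_self]
  · have e1 : ∑ l, θ i' l • e l = ∑ l, (θ i' l - θ i l) • e l + ∑ l, θ i l • e l := by
      rw [← Finset.sum_add_distrib]
      refine Finset.sum_congr rfl fun l _ => ?_
      rw [← add_smul, Nat.sub_add_cancel (hle1 l)]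
    have e2 : ∑ v ∈ S.per, c i' v • v = ∑ v ∈ S.per, (c i' v - c i v) • v
        + ∑ v ∈ S.per, c i v • v := by
      rw [← Finset.sum_add_distrib]
      refine Finset.sum_congr rfl fun v hv => ?_
      rw [← add_smul, Nat.sub_add_cancel (hle2 v hv)]
    have e3 := hc i
    have e4 := hc i'
    rw [e1, e2] at e4
    have e5 : (∑ l, (θ i' l - θ i l) • e l) + (b + ∑ l, θ i l • e l) =
        (∑ v ∈ S.per, (c i' v - c i v) • v) + (b + ∑ l, θ i l • e l) := by
      calc (∑ l, (θ i' l - θ i l) • e l) + (b + ∑ l, θ i l • e l)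
          = b + (∑ l, (θ i' l - θ i l) • e l + ∑ l, θ i l • e l) := by abel
        _ = S.base + (∑ v ∈ S.per, (c i' v - c i v) • v + ∑ v ∈ S.per, c i v • v) := e4
        _ = (∑ v ∈ S.per, (c i' v - c i v) • v) + (S.base + ∑ v ∈ S.per, c i v • v) := by abel
        _ = _ := by rw [← e3]
    exact add_right_cancel e5

end Pool.Agent.H87.CF
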